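import Mathlib
import Pool.Agent.H46.GEPP

/-!
# Gaussian elimination with partial pivoting: existence, and uniqueness of the leading pivots
-/

set_option autoImplicit false

namespace Pool.Agent.H77.GEPP

open Pool.Agent.H46.GEPP

/-- `PP A π L U`: the rows of `A` permuted by `π` factor as `L U`, as an outcome of partial
pivoting. -/
structure PP {n : ℕ} (A : Fin n → Fin n → ℝ) (π : Equiv.Perm (Fin n))
    (L U : Fin n → Fin n → ℝ) : Prop where
  diag : ∀ i, L i i = 1
  low : ∀ i j, i < j → L i j = 0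
  le : ∀ i j, |L i j| ≤ 1
  up : ∀ i j, j < i → U i j = 0
  eq : ∀ i j, A (π i) j = ∑ k, L i k * U k j

/-- One step of elimination. -/
noncomputable def schur {n : ℕ} (A : Fin (n+1) → Fin (n+1) → ℝ) : Fin n → Fin n → ℝ :=
  fun i j => A i.succ j.succ - A i.succ 0 * A 0 j.succ / A 0 0

theorem perm_succ {n : ℕ} (π : Equiv.Perm (Fin n)) (i : Fin n) :
    Equiv.Perm.decomposeFin.symm (0, π) i.succ = (π i).succ := by
  simp

theorem perm_zero {n : ℕ} (π : Equiv.Perm (Fin n)) :
    Equiv.Perm.decomposeFin.symm (0, π) 0 = 0 := by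
  simp

theorem PP.step {n : ℕ} {A : Fin (n+1) → Fin (n+1) → ℝ} (h : ∀ i, |A i 0| ≤ |A 0 0|)
    {π : Equiv.Perm (Fin n)} {L U : Fin n → Fin n → ℝ} (hS : PP (schur A) π L U) :
    PP A (Equiv.Perm.decomposeFin.symm (0, π))
      (Fin.cons (Fin.cons 1 0) (fun i => Fin.cons (A (π i).succ 0 / A 0 0) (L i)))
      (Fin.cons (A 0) (fun i => Fin.cons 0 (U i))) := by
  have hz : ∀ i, A i 0 / A 0 0 * A 0 0 = A i 0 := by
    intro i
    by_cases h0 : A 0 0 = 0
    · have := h i
      rw [h0, abs_zero] at this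
      rw [h0, abs_nonpos_iff.mp this]
      simp
    · field_simp
  refine ⟨?_, ?_, ?_, ?_, ?_⟩
  · intro i
    refine Fin.cases ?_ (fun i => ?_) i
    · simp
    · simp [hS.diag]
  · intro i j
    refine Fin.cases ?_ (fun i => ?_) i
    · refine Fin.cases ?_ (fun j => ?_) j
      · intro h; exact absurd h (lt_irrefl _)
      · simp
    · refine Fin.cases ?_ (fun j => ?_) j
      · intro h; exact absurd h (Fin.not_lt_zero _)
      · intro h
        simpa using hS.low i j (Fin.succ_lt_succ_iff.mp h)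
  · intro i j
    refine Fin.cases ?_ (fun i => ?_) i
    · refine Fin.cases ?_ (fun j => ?_) j
      · simp
      · simp
    · refine Fin.cases ?_ (fun j => ?_) j
      · simp only [Fin.cons_succ, Fin.cons_zero, abs_div]
        exact div_le_one_of_le₀ (h _) (abs_nonneg _)
      · simpa using hS.le i j
  · intro i j
    refine Fin.cases ?_ (fun i => ?_) i
    · intro h; exact absurd h (Fin.not_lt_zero _)
    · refine Fin.cases ?_ (fun j => ?_) j
      · simp
      · intro h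
        simpa using hS.up i j (Fin.succ_lt_succ_iff.mp h)
  · intro i j
    rw [Fin.sum_univ_succ]
    refine Fin.cases ?_ (fun i => ?_) i
    · simp
    · rw [perm_succ]
      refine Fin.cases ?_ (fun j => ?_) j
      · simp [hz]
      · have := hS.eq i j
        simp only [schur] at this
        simp only [Fin.cons_succ, Fin.cons_zero]
        rw [← this]
        ring

theorem PP.exists : ∀ {n : ℕ} (A : Fin n → Fin n → ℝ),
    ∃ (π : Equiv.Perm (Fin n)) (L U : Fin n → Fin n → ℝ), PP A π L U := by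
  intro n
  induction n with
  | zero =>
    intro A
    exact ⟨1, A, A, fun i => i.elim0, fun i => i.elim0, fun i => i.elim0, fun i => i.elim0,
      fun i => i.elim0⟩
  | succ n ih =>
    intro A
    obtain ⟨i₀, hi₀⟩ := Finite.exists_max (fun i : Fin (n+1) => |A i 0|)
    set B : Fin (n+1) → Fin (n+1) → ℝ := fun i => A (Equiv.swap 0 i₀ i) with hB
    have h : ∀ i, |B i 0| ≤ |B 0 0| := by
      intro i
      simp only [hB, Equiv.swap_apply_left]
      exact hi₀ _
    obtain ⟨π, L, U, hS⟩ := ih (schur B)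
    have h1 := PP.step h hS
    refine ⟨Equiv.swap 0 i₀ * Equiv.Perm.decomposeFin.symm (0, π), _, _, h1.diag, h1.low, h1.le,
      h1.up, ?_⟩
    intro i j
    rw [← h1.eq i j]
    rfl

theorem PP.zero_eq {n : ℕ} {A : Fin (n+1) → Fin (n+1) → ℝ}
    {π : Equiv.Perm (Fin (n+1))} {L U : Fin (n+1) → Fin (n+1) → ℝ} (hP : PP A π L U) (j) :
    U 0 j = A (π 0) j := by
  rw [hP.eq 0 j, Fin.sum_univ_succ, hP.diag 0, one_mul]
  have : ∀ k : Fin n, L 0 k.succ * U k.succ j = 0 := by
    intro k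
    rw [hP.low 0 k.succ (Fin.succ_pos k), zero_mul]
  simp [this]

theorem PP.col_eq {n : ℕ} {A : Fin (n+1) → Fin (n+1) → ℝ}
    {π : Equiv.Perm (Fin (n+1))} {L U : Fin (n+1) → Fin (n+1) → ℝ} (hP : PP A π L U) (i) :
    A (π i) 0 = L i 0 * A (π 0) 0 := by
  rw [hP.eq i 0, Fin.sum_univ_succ, hP.zero_eq]
  have : ∀ k : Fin n, L i k.succ * U k.succ 0 = 0 := by
    intro k
    rw [hP.up k.succ 0 (Fin.succ_pos k), mul_zero]
  simp [this]

theorem PP.pi_zero {n : ℕ} {A : Fin (n+1) → Fin (n+1) → ℝ} (h : ∀ i, i ≠ 0 → |A i 0| < |A 0 0|)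
    {π : Equiv.Perm (Fin (n+1))} {L U : Fin (n+1) → Fin (n+1) → ℝ} (hP : PP A π L U) :
    π 0 = 0 := by
  by_contra hne
  have h1 := hP.col_eq (π.symm 0)
  rw [Equiv.apply_symm_apply] at h1
  have h2 := h _ hne
  have h3 : |A 0 0| ≤ |A (π 0) 0| := by
    rw [h1, abs_mul]
    calc |L (π.symm 0) 0| * |A (π 0) 0| ≤ 1 * |A (π 0) 0| :=
          mul_le_mul_of_nonneg_right (hP.le _ _) (abs_nonneg _)
      _ = _ := one_mul _
  linarith

theorem PP.desc {n : ℕ} {A : Fin (n+1) → Fin (n+1) → ℝ} (h : ∀ i, i ≠ 0 → |A i 0| < |A 0 0|)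
    (h0 : A 0 0 ≠ 0)
    {π : Equiv.Perm (Fin (n+1))} {L U : Fin (n+1) → Fin (n+1) → ℝ} (hP : PP A π L U) :
    ∃ π' : Equiv.Perm (Fin n),
      PP (schur A) π' (fun i j => L i.succ j.succ) (fun i j => U i.succ j.succ) := by
  have hπ := hP.pi_zero h
  obtain ⟨⟨p, π'⟩, hp⟩ := Equiv.Perm.decomposeFin.symm.surjective π
  have hp0 : p = 0 := by
    rw [← hp] at hπ
    simpa using hπ
  subst hp0
  refine ⟨π', fun i => hP.diag _, fun i j hij => hP.low _ _ (Fin.succ_lt_succ_iff.mpr hij),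
    fun i j => hP.le _ _, fun i j hij => hP.up _ _ (Fin.succ_lt_succ_iff.mpr hij), ?_⟩
  intro i j
  have h1 := hP.eq i.succ j.succ
  have h2 := hP.col_eq i.succ
  have h3 : π i.succ = (π' i).succ := by
    rw [← hp, perm_succ]
  rw [Fin.sum_univ_succ, hP.zero_eq, hπ, h3] at h1
  rw [h3, hπ] at h2
  simp only [schur]
  rw [h1, h2]
  field_simp
  ring

theorem sc_shift (g : ℕ → ℕ → ℝ) (k i j : ℕ) :
    sc (fun i j => g (i+1) (j+1) - g (i+1) 0 * g 0 (j+1) / g 0 0) k i j
      = sc g (k+1) (i+1) (j+1) := by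
  induction k generalizing i j with
  | zero => simp [sc]
  | succ k ih =>
    rw [sc, ih, ih, ih, ih]
    rfl

theorem sc_smul (M : ℝ) (hM : M ≠ 0) (g : ℕ → ℕ → ℝ) (k i j : ℕ) :
    sc (fun i j => M * g i j) k i j = M * sc g k i j := by
  induction k generalizing i j with
  | zero => simp [sc]
  | succ k ih =>
    rw [sc, ih, ih, ih, ih, sc]
    by_cases h : sc g k k k = 0
    · simp [h]
    · field_simp

/-- The pivot `k` is determined when the first `k+1` pivots dominate strictly. -/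
theorem PP.pivot (k : ℕ) : ∀ (n : ℕ) (g : ℕ → ℕ → ℝ),
    (∀ m, m ≤ k → ∀ i, m < i → i < n → |sc g m i m| < |sc g m m m|) →
    (∀ m, m ≤ k → sc g m m m ≠ 0) →
    ∀ (hk : k < n) (π : Equiv.Perm (Fin n)) (L U : Fin n → Fin n → ℝ),
      PP (fun i j : Fin n => g i j) π L U → U ⟨k, hk⟩ ⟨k, hk⟩ = sc g k k k := by
  induction k with
  | zero =>
    intro n g h _ hk π L U hP
    obtain ⟨n, rfl⟩ : ∃ n', n = n' + 1 := ⟨n - 1, by omega⟩
    have h0 : ∀ i : Fin (n+1), i ≠ 0 → |g i (0 : Fin (n+1))| < |g (0 : Fin (n+1)) (0 : Fin (n+1))| := by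
      intro i hi
      exact h 0 le_rfl i (Nat.pos_of_ne_zero fun h0 => hi (Fin.ext h0)) i.2
    have h1 := hP.pi_zero h0
    have h2 := hP.zero_eq 0
    rw [h1] at h2
    simpa [sc] using h2
  | succ k ih =>
    intro n g h hne hk π L U hP
    obtain ⟨n, rfl⟩ : ∃ n', n = n' + 1 := ⟨n - 1, by omega⟩
    have h0 : ∀ i : Fin (n+1), i ≠ 0 → |g i (0 : Fin (n+1))| < |g (0 : Fin (n+1)) (0 : Fin (n+1))| := by
      intro i hi
      exact h 0 (Nat.zero_le _) i (Nat.pos_of_ne_zero fun h0 => hi (Fin.ext h0)) i.2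
    obtain ⟨π', hP'⟩ := hP.desc h0 (by simpa [sc] using hne 0 (Nat.zero_le _))
    have h1 := ih n (fun i j => g (i+1) (j+1) - g (i+1) 0 * g 0 (j+1) / g 0 0)
      (fun m hm i hi hin => by
        rw [sc_shift, sc_shift]
        exact h (m+1) (by omega) (i+1) (by omega) (by omega))
      (fun m hm => by
        rw [sc_shift]
        exact hne (m+1) (by omega))
      (by omega) π' _ _ hP'
    rw [sc_shift] at h1
    exact h1

end Pool.Agent.H77.GEPP
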