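import Mathlib
import Pool.Agent.H46.GEPP2
import Pool.Agent.H77.GEPP.Alg

/-!
# Growth for matrices whose leading block is near a multiple of the target
-/

set_option autoImplicit false

namespace Pool.Agent.H77.GEPP

open Pool.Agent.H46.GEPP

theorem mul_div_bound {x b a X B d : ℝ} (hd' : d ≤ 1/10) (ha : |a - 1| ≤ d)
    (hx : |x| ≤ X) (hb : |b| ≤ B) : |x * b / a| ≤ X * B * (10/9) := by
  have ha0 : 9/10 ≤ a := by
    rw [abs_le] at ha
    linarith
  have hX : 0 ≤ X := (abs_nonneg _).trans hx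
  have hB : 0 ≤ B := (abs_nonneg _).trans hb
  have h1 : |x * b| ≤ X * B := by
    rw [abs_mul]
    exact mul_le_mul hx hb (abs_nonneg _) hX
  rw [abs_div, abs_of_pos (by linarith : (0:ℝ) < a), div_le_iff₀ (by linarith)]
  have h2 : 0 ≤ X * B := mul_nonneg hX hB
  nlinarith

theorem tail_all {N : ℕ} {δ : ℝ} {g : ℕ → ℕ → ℝ} (hδ : 0 ≤ δ) (hδ' : 4 ^ N * δ ≤ 1/10)
    (h : Near N δ 1 0 g) {i : ℕ} (hi : ∀ j, j ≤ N → |g i j| ≤ 1/10) :
    ∀ k, k ≤ N → (∀ j, k ≤ j → j < N → |sc g k i j| ≤ (1 + 4 ^ k * δ) / 10) ∧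
      |sc g k i N| ≤ 3/10 * (3/2) ^ k := by
  have hall := near_all hδ hδ' h
  intro k
  induction k with
  | zero =>
    intro _
    refine ⟨fun j _ hj => ?_, ?_⟩
    · have := hi j hj.le
      simp only [sc, pow_zero, one_mul]
      linarith
    · have := hi N le_rfl
      simp only [sc, pow_zero, mul_one]
      linarith
  | succ k ih =>
    intro hk
    obtain ⟨ih1, ih2⟩ := ih (by omega)
    have hd : (4:ℝ) ^ k * δ ≤ 1/10 := by
      refine le_trans ?_ hδ'
      apply mul_le_mul_of_nonneg_right _ hδ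
      exact pow_le_pow_right₀ (by norm_num) (by omega)
    have hd0 : 0 ≤ (4:ℝ) ^ k * δ := by positivity
    have hN := hall k (by omega)
    have ha := hN.diag k le_rfl (by omega)
    have hx := ih1 k le_rfl (by omega)
    have e1 : (4:ℝ) ^ (k+1) * δ = 4 * (4 ^ k * δ) := by ring
    refine ⟨fun j hj hjN => ?_, ?_⟩
    · have hb := hN.up k j le_rfl (by omega) hjN
      have h1 := mul_div_bound hd ha hx hb
      have h2 := ih1 j (by omega) hjN
      rw [sc, e1]
      have h3 : (1 + 4 ^ k * δ) / 10 * (4 ^ k * δ) * (10/9) ≤ 3/10 * (4 ^ k * δ) := by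
        nlinarith
      rw [abs_le] at h1 h2 ⊢
      constructor <;> linarith
    · have hb := hN.last k le_rfl (by omega)
      have hs : (0:ℝ) < (3/2) ^ k := by positivity
      have hb' : |sc g k k N| ≤ 11/10 * (3/2) ^ k := by
        rw [abs_le] at hb ⊢
        constructor <;> nlinarith
      have h1 := mul_div_bound hd ha hx hb'
      have h3 : (1 + 4 ^ k * δ) / 10 * (11/10 * (3/2) ^ k) * (10/9) ≤ 3/20 * (3/2) ^ k := by
        nlinarith
      rw [sc, pow_succ]
      rw [abs_le] at h1 ih2 ⊢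
      constructor <;> linarith

theorem dominance {N : ℕ} {δ : ℝ} {g : ℕ → ℕ → ℝ} (hδ : 0 ≤ δ) (hδ' : 4 ^ N * δ ≤ 1/10)
    (h : Near N δ 1 0 g) {n : ℕ} (hi : ∀ i, N < i → i < n → ∀ j, j ≤ N → |g i j| ≤ 1/10) :
    ∀ m, m ≤ N → ∀ i, m < i → i < n → |sc g m i m| < |sc g m m m| := by
  intro m hm i hmi hin
  have hall := near_all hδ hδ' h m hm
  have hd : (4:ℝ) ^ m * δ ≤ 1/10 := by
    refine le_trans ?_ hδ'
    apply mul_le_mul_of_nonneg_right _ hδ
    exact pow_le_pow_right₀ (by norm_num) hm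
  rcases Nat.lt_or_ge m N with hmN | hmN
  · have h1 := hall.diag m le_rfl hmN
    have h2 : 9/10 ≤ |sc g m m m| := by
      refine le_trans ?_ (le_abs_self _)
      rw [abs_le] at h1
      linarith
    rcases Nat.lt_or_ge N i with hNi | hNi
    · have h3 := (tail_all hδ hδ' h (hi i hNi hin) m hm).1 m le_rfl hmN
      linarith
    · have h3 := hall.low i m le_rfl hmi hNi
      have h4 : |sc g m i m| ≤ 6/10 := by
        rw [abs_le] at h3 ⊢
        constructor <;> linarith
      linarith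
  · obtain rfl : m = N := le_antisymm hm hmN
    have h1 := hall.last m le_rfl le_rfl
    have hs : (0:ℝ) < (3/2) ^ m := by positivity
    have h2 : 9/10 * (3/2) ^ m ≤ |sc g m m m| := by
      refine le_trans ?_ (le_abs_self _)
      rw [abs_le] at h1
      nlinarith
    have h3 := (tail_all hδ hδ' h (hi i hmi hin) m le_rfl).2
    linarith

theorem pivot_ge {N : ℕ} {δ : ℝ} {g : ℕ → ℕ → ℝ} (hδ : 0 ≤ δ) (hδ' : 4 ^ N * δ ≤ 1/10)
    (h : Near N δ 1 0 g) : 9/10 * (3/2) ^ N ≤ |sc g N N N| := by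
  have h1 := (near_all hδ hδ' h N le_rfl).last N le_rfl le_rfl
  have hs : (0:ℝ) < (3/2) ^ N := by positivity
  refine le_trans ?_ (le_abs_self _)
  rw [abs_le] at h1
  nlinarith

theorem pivot_ne {N : ℕ} {δ : ℝ} {g : ℕ → ℕ → ℝ} (hδ : 0 ≤ δ) (hδ' : 4 ^ N * δ ≤ 1/10)
    (h : Near N δ 1 0 g) : ∀ m, m ≤ N → sc g m m m ≠ 0 := by
  intro m hm
  rcases Nat.lt_or_ge m N with hmN | hmN
  · have h1 := (near_all hδ hδ' h m hm).diag m le_rfl hmN
    have hd : (4:ℝ) ^ m * δ ≤ 1/10 := by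
      refine le_trans ?_ hδ'
      apply mul_le_mul_of_nonneg_right _ hδ
      exact pow_le_pow_right₀ (by norm_num) hm
    intro h0
    rw [h0, abs_le] at h1
    linarith
  · obtain rfl : m = N := le_antisymm hm hmN
    intro h0
    have h1 := pivot_ge hδ hδ' h
    rw [h0, abs_zero] at h1
    have hs : (0:ℝ) < (3/2) ^ m := by positivity
    linarith

/-- The deterministic part. -/
theorem growth {N n : ℕ} {δ M : ℝ} (hM : 0 < M) (hN : N < n) (hδ : 0 ≤ δ)
    (hδ' : 4 ^ N * δ ≤ 1/10) {A : Fin n → Fin n → ℝ}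
    (h : ∀ i j : Fin n, (i:ℕ) ≤ N → (j:ℕ) ≤ N → |A i j - M * tgt N i j| ≤ M * δ)
    (h' : ∀ i j : Fin n, N < (i:ℕ) ∨ N < (j:ℕ) → |A i j| ≤ M / 10)
    {π : Equiv.Perm (Fin n)} {L U : Fin n → Fin n → ℝ} (hP : PP A π L U) :
    M * (9/10 * (3/2) ^ N) ≤ |U ⟨N, hN⟩ ⟨N, hN⟩| := by
  let g : ℕ → ℕ → ℝ := fun i j => if hh : i < n ∧ j < n then A ⟨i, hh.1⟩ ⟨j, hh.2⟩ / M else 0
  have hg : ∀ i j : Fin n, g i j = A i j / M := by
    intro i j
    simp only [g, i.2, j.2, and_self, dif_pos]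
  have hgA : A = fun i j : Fin n => (fun i j => M * g i j : ℕ → ℕ → ℝ) i j := by
    funext i j
    simp only [hg]
    field_simp
  have hclose : ∀ i j : ℕ, i ≤ N → j ≤ N → |g i j - tgt N i j| ≤ δ := by
    intro i j hi hj
    have h1 := h ⟨i, by omega⟩ ⟨j, by omega⟩ hi hj
    have h2 := hg ⟨i, by omega⟩ ⟨j, by omega⟩
    simp only at h1 h2
    rw [h2]
    rw [show A ⟨i, by omega⟩ ⟨j, by omega⟩ / M - tgt N i j
      = (A ⟨i, by omega⟩ ⟨j, by omega⟩ - M * tgt N i j) / M by field_simp, abs_div,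
      abs_of_pos hM, div_le_iff₀ hM]
    linarith
  have hnear : Near N δ 1 0 g := by
    refine ⟨?_, ?_, ?_, ?_⟩
    · intro i _ hi
      have := hclose i i (by omega) (by omega)
      rwa [tgt, if_neg (by omega), if_pos rfl] at this
    · intro i j _ hji hi
      have := hclose i j (by omega) (by omega)
      rw [tgt, if_neg (by omega), if_neg (by omega), if_pos hji] at this
      simpa using this
    · intro i j _ hij hj
      have := hclose i j (by omega) (by omega)
      rw [tgt, if_neg (by omega), if_neg (by omega), if_neg (by omega)] at this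
      simpa using this
    · intro i _ hi
      have := hclose i N (by omega) le_rfl
      rw [tgt, if_pos rfl] at this
      simpa using this
  have htail : ∀ i, N < i → i < n → ∀ j, j ≤ N → |g i j| ≤ 1/10 := by
    intro i hi hin j hj
    have h1 := h' ⟨i, hin⟩ ⟨j, by omega⟩ (Or.inl hi)
    have h2 := hg ⟨i, hin⟩ ⟨j, by omega⟩
    simp only at h1 h2
    rw [h2, abs_div, abs_of_pos hM, div_le_iff₀ hM]
    linarith
  rw [hgA] at hP
  have h1 := PP.pivot N n (fun i j => M * g i j)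
    (by
      intro m hm i hmi hin
      rw [sc_smul M hM.ne', sc_smul M hM.ne', abs_mul, abs_mul]
      exact mul_lt_mul_of_pos_left (dominance hδ hδ' hnear htail m hm i hmi hin)
        (abs_pos.mpr hM.ne'))
    (by
      intro m hm
      rw [sc_smul M hM.ne']
      exact mul_ne_zero hM.ne' (pivot_ne hδ hδ' hnear m hm))
    hN π L U hP
  rw [h1, sc_smul M hM.ne', abs_mul, abs_of_pos hM]
  exact mul_le_mul_of_nonneg_left (pivot_ge hδ hδ' hnear) hM.le

theorem row_le {N n : ℕ} {δ M : ℝ} (hM : 0 < M) (hδ' : δ ≤ 1/10) {A : Fin n → Fin n → ℝ}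
    (h : ∀ i j : Fin n, (i:ℕ) ≤ N → (j:ℕ) ≤ N → |A i j - M * tgt N i j| ≤ M * δ)
    (h' : ∀ i j : Fin n, N < (i:ℕ) ∨ N < (j:ℕ) → |A i j| ≤ M / 10) (i : Fin n) :
    ∑ j, |A i j| ≤ n * (M * (11/10)) := by
  have h1 : ∀ j ∈ Finset.univ, |A i j| ≤ M * (11/10) := by
    intro j _
    by_cases hc : (i:ℕ) ≤ N ∧ (j:ℕ) ≤ N
    · have h2 := h i j hc.1 hc.2
      have h3 : |M * tgt N i j| ≤ M := by
        rw [abs_mul, abs_of_pos hM]
        have := tgt_abs N i j
        nlinarith
      have h4 : |A i j| ≤ |A i j - M * tgt N i j| + |M * tgt N i j| := by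
        have := abs_add_le (A i j - M * tgt N i j) (M * tgt N i j)
        simpa using this
      nlinarith
    · have h2 := h' i j (by omega)
      linarith
  have h2 := Finset.sum_le_card_nsmul Finset.univ (fun j => |A i j|) (M * (11/10)) h1
  simpa using h2

end Pool.Agent.H77.GEPP
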