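import Mathlib
import Pool.Agent.H77.GEPP.Tail

/-!
# Lower bound for the Gaussian measure of the box
-/

set_option autoImplicit false
open MeasureTheory ProbabilityTheory

namespace Pool.Agent.H77.GEPP

open Pool.Agent.H46.GEPP

theorem pdf_ge {x R : ℝ} (hx : |x| ≤ R) :
    1/3 * Real.exp (-(R ^ 2 / 2)) ≤ gaussianPDFReal 0 1 x := by
  rw [gaussianPDFReal]
  have h1 : Real.sqrt (2 * Real.pi * ((1 : NNReal) : ℝ)) ≤ 3 := by
    rw [Real.sqrt_le_left (by norm_num)]
    have := Real.pi_lt_d2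
    simp
    nlinarith
  have h2 : Real.exp (-(R ^ 2 / 2)) ≤ Real.exp (-(x - 0) ^ 2 / (2 * ((1 : NNReal) : ℝ))) := by
    apply Real.exp_le_exp.mpr
    have : x ^ 2 ≤ R ^ 2 := by
      rw [← sq_abs x]
      exact pow_le_pow_left₀ (abs_nonneg _) hx 2
    simp
    linarith
  have h4 : (1:ℝ)/3 ≤ (Real.sqrt (2 * Real.pi * ((1 : NNReal) : ℝ)))⁻¹ := by
    rw [one_div]
    apply inv_anti₀ _ h1
    apply Real.sqrt_pos.mpr
    have := Real.pi_pos
    simp
    positivity
  exact mul_le_mul h4 h2 (Real.exp_pos _).le (le_trans (by norm_num) h4)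

theorem gauss_box {c r R : ℝ} (hr : 0 ≤ r) (h : |c| + r ≤ R) :
    ENNReal.ofReal (1/2 * r * Real.exp (-(R ^ 2 / 2))) ≤
      gaussianReal 0 1 (Set.Icc (c - r) (c + r)) := by
  rw [gaussianReal_apply 0 one_ne_zero]
  have h1 : ∫⁻ _ in Set.Icc (c - r) (c + r), ENNReal.ofReal (1/3 * Real.exp (-(R ^ 2 / 2))) ≤
      ∫⁻ x in Set.Icc (c - r) (c + r), gaussianPDF 0 1 x := by
    apply setLIntegral_mono (measurable_gaussianPDF 0 1)
    intro x hx
    rw [gaussianPDF]
    apply ENNReal.ofReal_le_ofReal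
    apply pdf_ge
    refine le_trans ?_ h
    have h1 := neg_abs_le c
    have h2 := le_abs_self c
    rw [abs_le]
    constructor <;> linarith [hx.1, hx.2]
  refine le_trans ?_ h1
  rw [setLIntegral_const, Real.volume_Icc, ← ENNReal.ofReal_mul (by positivity)]
  apply ENNReal.ofReal_le_ofReal
  have : 0 ≤ r * Real.exp (-(R ^ 2 / 2)) := by positivity
  nlinarith

theorem gauss_tail {t : ℝ} (ht : 0 ≤ t) :
    ENNReal.ofReal (1 - 2 * Real.exp (-(t ^ 2 / 2))) ≤
      gaussianReal 0 1 (Set.Icc (-t) t) := by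
  have hint : ∀ s : ℝ, Integrable (fun ω => Real.exp (s * id ω)) (gaussianReal 0 1) := by
    intro s
    exact integrable_exp_mul_gaussianReal s
  have h1 := measure_ge_le_exp_mul_mgf (μ := gaussianReal 0 1) (X := id) t ht (hint t)
  have h2 := measure_le_le_exp_mul_mgf (μ := gaussianReal 0 1) (X := id) (-t)
    (neg_nonpos.mpr ht) (hint (-t))
  rw [mgf_id_gaussianReal] at h1 h2
  have e1 : Real.exp (-t * t) * Real.exp (0 * t + ((1 : NNReal) : ℝ) * t ^ 2 / 2)
      = Real.exp (-(t ^ 2 / 2)) := by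
    rw [← Real.exp_add]
    congr 1
    simp
    ring
  have e2 : Real.exp (-(-t) * (-t)) * Real.exp (0 * (-t) + ((1 : NNReal) : ℝ) * (-t) ^ 2 / 2)
      = Real.exp (-(t ^ 2 / 2)) := by
    rw [← Real.exp_add]
    congr 1
    simp
    ring
  simp only at h1 h2
  rw [e1] at h1
  rw [e2] at h2
  have h3 : (Set.univ : Set ℝ) ⊆
      Set.Icc (-t) t ∪ ({ω | t ≤ id ω} ∪ {ω | id ω ≤ -t}) := by
    intro x _
    by_cases hx : x ∈ Set.Icc (-t) t
    · exact Or.inl hx
    · right
      rw [Set.mem_Icc, not_and_or, not_le, not_le] at hx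
      rcases hx with hx | hx
      · exact Or.inr hx.le
      · exact Or.inl hx.le
  have h4 : (gaussianReal 0 1).real Set.univ ≤ (gaussianReal 0 1).real (Set.Icc (-t) t) +
      ((gaussianReal 0 1).real {ω | t ≤ id ω} + (gaussianReal 0 1).real {ω | id ω ≤ -t}) := by
    refine (measureReal_mono h3).trans ?_
    refine (measureReal_union_le _ _).trans ?_
    exact add_le_add le_rfl (measureReal_union_le _ _)
  rw [probReal_univ] at h4
  rw [← ENNReal.ofReal_toReal (measure_ne_top (gaussianReal 0 1) (Set.Icc (-t) t))]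
  apply ENNReal.ofReal_le_ofReal
  have h5 : (gaussianReal 0 1).real (Set.Icc (-t) t)
    = (gaussianReal 0 1 (Set.Icc (-t) t)).toReal := rfl
  rw [← h5]
  linarith

/-- The box for one entry. -/
noncomputable def bx (N : ℕ) (δ M σ t : ℝ) (a : ℝ) (i j : ℕ) : Set ℝ :=
  if i ≤ N ∧ j ≤ N then
    Set.Icc ((M * tgt N i j - a) / σ - M * δ / σ) ((M * tgt N i j - a) / σ + M * δ / σ)
  else Set.Icc (-t) t

theorem card_block (N n : ℕ) :
    (Finset.univ.filter fun i : Fin n => (i:ℕ) ≤ N).card ≤ N + 1 := by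
  have h := Finset.card_le_card_of_injOn (s := Finset.univ.filter fun i : Fin n => (i:ℕ) ≤ N)
    (t := Finset.range (N+1)) (fun i => (i:ℕ))
    (by
      intro i hi
      simp only [Finset.coe_filter, Finset.mem_univ, true_and, Set.mem_ofPred_eq] at hi
      simp only [Finset.coe_range, Set.mem_Iio]
      omega)
    (by
      intro i _ j _ hij
      exact Fin.ext hij)
  simpa using h

theorem prod_block {N n : ℕ} {p q : ℝ} (hp : 0 ≤ p) (hp1 : p ≤ 1) (hq : 0 ≤ q) :
    p ^ ((N+1)^2) * q ^ (n^2) ≤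
      ∏ i : Fin n, ∏ j : Fin n, (if (i:ℕ) ≤ N ∧ (j:ℕ) ≤ N then p else 1) * q := by
  have h1 : ∀ i : Fin n, (if (i:ℕ) ≤ N then p ^ (N+1) else 1) * q ^ n ≤
      ∏ j : Fin n, (if (i:ℕ) ≤ N ∧ (j:ℕ) ≤ N then p else 1) * q := by
    intro i
    rw [Finset.prod_mul_distrib, Finset.prod_const, Finset.card_univ, Fintype.card_fin]
    apply mul_le_mul_of_nonneg_right _ (by positivity)
    by_cases hi : (i:ℕ) ≤ N
    · simp only [hi, true_and, if_true]
      rw [Finset.prod_ite, Finset.prod_const, Finset.prod_const_one, mul_one]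
      exact pow_le_pow_of_le_one hp hp1 (card_block N n)
    · simp [hi]
  calc p ^ ((N+1)^2) * q ^ (n^2) ≤ ∏ i : Fin n, ((if (i:ℕ) ≤ N then p ^ (N+1) else 1) * q ^ n) := by
        rw [Finset.prod_mul_distrib, Finset.prod_const, Finset.card_univ, Fintype.card_fin,
          ← pow_mul, ← sq]
        apply mul_le_mul_of_nonneg_right _ (by positivity)
        rw [Finset.prod_ite, Finset.prod_const, Finset.prod_const_one, mul_one, ← pow_mul, sq]
        exact pow_le_pow_of_le_one hp hp1 (Nat.mul_le_mul_left _ (card_block N n))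
    _ ≤ _ := by
        apply Finset.prod_le_prod
        · intro i _
          split_ifs <;> positivity
        · intro i _
          exact h1 i

/-- The measure of the box. -/
theorem box_ge {N n : ℕ} {δ M σ t : ℝ} (hσ : 0 < σ) (hδ : 0 ≤ δ) (hδ' : δ ≤ 1/10) (hM : 2 ≤ M)
    (hσM : σ ≤ M) (ht : 0 ≤ t) (ht2 : 2 * Real.exp (-(t ^ 2 / 2)) ≤ 1 / (2 * (n:ℝ) ^ 2))
    (hn : 0 < n) {Ab : Fin n → Fin n → ℝ} (hA : ∀ i j, |Ab i j| ≤ 1) :
    ENNReal.ofReal ((1/2 * δ * Real.exp (-(2 * (M / σ) ^ 2))) ^ ((N+1)^2) * (1/2)) ≤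
    (Measure.pi fun _ : Fin n => Measure.pi fun _ : Fin n => gaussianReal 0 1)
      (Set.univ.pi fun i : Fin n => Set.univ.pi fun j : Fin n => bx N δ M σ t (Ab i j) i j) := by
  set p : ℝ := 1/2 * δ * Real.exp (-(2 * (M / σ) ^ 2)) with hp
  set q : ℝ := 1 - 1 / (2 * (n:ℝ) ^ 2) with hq
  have hn1 : (1:ℝ) ≤ n := by exact_mod_cast hn
  have hMpos : 0 < M := by linarith
  have hp0 : 0 ≤ p := by positivity
  have hp1 : p ≤ 1 := by
    have h1 : Real.exp (-(2 * (M / σ) ^ 2)) ≤ 1 := by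
      apply Real.exp_le_one_iff.mpr
      have : 0 ≤ (M / σ) ^ 2 := by positivity
      linarith
    have h2 : 0 < Real.exp (-(2 * (M / σ) ^ 2)) := Real.exp_pos _
    rw [hp]
    nlinarith
  have hn2 : (1:ℝ) ≤ (n:ℝ) ^ 2 := one_le_pow₀ hn1
  have hq0 : 1/2 ≤ q := by
    rw [hq]
    have : 1 / (2 * (n:ℝ) ^ 2) ≤ 1 / 2 := by
      apply one_div_le_one_div_of_le (by norm_num)
      linarith
    linarith
  have hq1 : q ≤ 1 := by
    rw [hq]
    have : 0 ≤ 1 / (2 * (n:ℝ) ^ 2) := by positivity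
    linarith
  have hqn : 1/2 ≤ q ^ (n^2) := by
    have h1 := one_add_mul_le_pow (show (-2:ℝ) ≤ q - 1 by linarith) (n^2)
    have h2 : ((n^2 : ℕ) : ℝ) * (q - 1) = -(1/2) := by
      rw [hq]
      push_cast
      have : (n:ℝ) ^ 2 ≠ 0 := by positivity
      field_simp
      ring
    rw [h2] at h1
    have h3 : (1:ℝ) + (q - 1) = q := by ring
    rw [h3] at h1
    linarith
  rw [Measure.pi_pi]
  have hentry : ∀ i j : Fin n, ENNReal.ofReal ((if (i:ℕ) ≤ N ∧ (j:ℕ) ≤ N then p else 1) * q) ≤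
      gaussianReal 0 1 (bx N δ M σ t (Ab i j) i j) := by
    intro i j
    unfold bx
    by_cases hc : (i:ℕ) ≤ N ∧ (j:ℕ) ≤ N
    · rw [if_pos hc, if_pos hc]
      refine le_trans ?_ (gauss_box (R := 2 * (M / σ)) (by positivity) ?_)
      · apply ENNReal.ofReal_le_ofReal
        have e1 : (2 * (M / σ)) ^ 2 / 2 = 2 * (M / σ) ^ 2 := by ring
        rw [e1, hp]
        have h1 : δ ≤ M * δ / σ := by
          rw [le_div_iff₀ hσ]
          nlinarith
        have h2 : 0 < Real.exp (-(2 * (M / σ) ^ 2)) := Real.exp_pos _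
        have h3 : δ * Real.exp (-(2 * (M / σ) ^ 2)) ≤
            M * δ / σ * Real.exp (-(2 * (M / σ) ^ 2)) := mul_le_mul_of_nonneg_right h1 h2.le
        have h4 : 0 ≤ δ * Real.exp (-(2 * (M / σ) ^ 2)) := by positivity
        nlinarith
      · rw [abs_div, abs_of_pos hσ, ← add_div, ← mul_div_assoc]
        apply div_le_div_of_nonneg_right _ hσ.le
        have h1 := tgt_abs N i j
        have h2 := hA i j
        have h3 : |M * tgt N i j - Ab i j| ≤ M + 1 := by
          refine (abs_sub _ _).trans ?_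
          rw [abs_mul, abs_of_pos hMpos]
          nlinarith
        nlinarith
    · rw [if_neg hc, if_neg hc, one_mul]
      refine le_trans ?_ (gauss_tail ht)
      apply ENNReal.ofReal_le_ofReal
      rw [hq]
      linarith
  have hrow : ∀ i : Fin n,
      ENNReal.ofReal (∏ j : Fin n, (if (i:ℕ) ≤ N ∧ (j:ℕ) ≤ N then p else 1) * q) ≤
      (Measure.pi fun _ : Fin n => gaussianReal 0 1)
        (Set.univ.pi fun j : Fin n => bx N δ M σ t (Ab i j) i j) := by
    intro i
    rw [Measure.pi_pi, ENNReal.ofReal_prod_of_nonneg]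
    · exact Finset.prod_le_prod' fun j _ => hentry i j
    · intro j _
      split_ifs <;> positivity
  calc ENNReal.ofReal (p ^ ((N+1)^2) * (1/2))
      ≤ ENNReal.ofReal (∏ i : Fin n, ∏ j : Fin n,
          (if (i:ℕ) ≤ N ∧ (j:ℕ) ≤ N then p else 1) * q) := by
        apply ENNReal.ofReal_le_ofReal
        refine le_trans ?_ (prod_block hp0 hp1 (by linarith))
        exact mul_le_mul_of_nonneg_left hqn (by positivity)
    _ = ∏ i : Fin n, ENNReal.ofReal (∏ j : Fin n,
          (if (i:ℕ) ≤ N ∧ (j:ℕ) ≤ N then p else 1) * q) := by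
        apply ENNReal.ofReal_prod_of_nonneg
        intro i _
        apply Finset.prod_nonneg
        intro j _
        split_ifs <;> positivity
    _ ≤ _ := Finset.prod_le_prod' fun i _ => hrow i

end Pool.Agent.H77.GEPP
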