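import Mathlib
import Pool.Agent.H77.GEPP.Prob

/-!
# Quasi-polynomially small probability of growth `n ^ c`
-/

set_option autoImplicit false
open MeasureTheory ProbabilityTheory

namespace Pool.Agent.H77.GEPP

open Pool.Agent.H46.GEPP

theorem size_event (κ : ℝ) : ∃ n₀ : ℕ, ∀ n : ℕ, n₀ ≤ n →
    2 ≤ n ∧ 1 ≤ Real.log n ∧ κ * Real.log n + 2 ≤ n := by
  have h1 : ∀ᶠ x : ℝ in Filter.atTop, ‖Real.log x‖ ≤ 1 / (2 * (|κ| + 1)) * ‖id x‖ :=
    Real.isLittleO_log_id_atTop.bound (by positivity)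
  have h2 : ∀ᶠ x : ℝ in Filter.atTop, (4:ℝ) ≤ x := Filter.eventually_ge_atTop 4
  have h3 : ∀ᶠ x : ℝ in Filter.atTop, 1 ≤ Real.log x :=
    Real.tendsto_log_atTop.eventually_ge_atTop 1
  have h4 := (tendsto_natCast_atTop_atTop (R := ℝ)).eventually ((h1.and h2).and h3)
  obtain ⟨n₀, hn₀⟩ := Filter.eventually_atTop.mp h4
  refine ⟨n₀, fun n hn => ?_⟩
  obtain ⟨⟨ha, hb⟩, hc⟩ := hn₀ n hn
  refine ⟨by exact_mod_cast (by linarith : (2:ℝ) ≤ n), hc, ?_⟩
  rw [Real.norm_eq_abs, abs_of_nonneg (by linarith : (0:ℝ) ≤ Real.log n), id, Real.norm_eq_abs,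
    abs_of_nonneg (by linarith : (0:ℝ) ≤ (n:ℝ))] at ha
  have h5 : |κ| * Real.log n ≤ n / 2 := by
    have h6 : (|κ| + 1) * Real.log n ≤ n / 2 := by
      calc (|κ| + 1) * Real.log n ≤ (|κ| + 1) * (1 / (2 * (|κ| + 1)) * n) :=
            mul_le_mul_of_nonneg_left ha (by positivity)
        _ = n / 2 := by
            have : |κ| + 1 ≠ 0 := by positivity
            field_simp
    nlinarith
  have h7 : κ * Real.log n ≤ |κ| * Real.log n :=
    mul_le_mul_of_nonneg_right (le_abs_self κ) (by linarith)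
  linarith

theorem growth_size {c κ : ℝ} (hκ : κ * Real.log (3/2) = c + 2) {n N : ℕ} (hn : 2 ≤ n)
    (hN : κ * Real.log n ≤ N) {M : ℝ} (hM : 0 < M) :
    (n:ℝ) ^ c * (n * (M * (11/10))) < M * (9/10 * (3/2) ^ N) := by
  have hn' : (2:ℝ) ≤ n := by exact_mod_cast hn
  have hpos : (0:ℝ) < n := by linarith
  have h1 : (n:ℝ) ^ c * (n:ℝ) ^ 2 ≤ (3/2) ^ N := by
    have e1 : (n:ℝ) ^ c * (n:ℝ) ^ 2 = Real.exp (Real.log n * (c + 2)) := by
      rw [← Real.rpow_natCast, ← Real.rpow_add hpos, Real.rpow_def_of_pos hpos]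
      norm_num
    have e2 : ((3:ℝ)/2) ^ N = Real.exp (Real.log (3/2) * N) := by
      rw [← Real.rpow_natCast, Real.rpow_def_of_pos (by norm_num)]
    rw [e1, e2]
    apply Real.exp_le_exp.mpr
    rw [← hκ]
    have h2 : 0 < Real.log (3/2) := Real.log_pos (by norm_num)
    nlinarith
  have h2 : 0 < (n:ℝ) ^ c := Real.rpow_pos_of_pos hpos _
  have h3 : 0 < (n:ℝ) ^ c * M := by positivity
  calc (n:ℝ) ^ c * (n * (M * (11/10))) = (n:ℝ) ^ c * M * (11/10 * n) := by ring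
    _ < (n:ℝ) ^ c * M * (9/10 * (n:ℝ) ^ 2) := by
        apply mul_lt_mul_of_pos_left _ h3
        nlinarith
    _ = M * (9/10 * ((n:ℝ) ^ c * (n:ℝ) ^ 2)) := by ring
    _ ≤ _ := by
        apply mul_le_mul_of_nonneg_left _ hM.le
        linarith

theorem prob_size {κ σ L : ℝ} {n N : ℕ} (hκ : 0 ≤ κ) (hn : 2 ≤ n) (hL : L = Real.log n)
    (hL1 : 1 ≤ L) (hN : (N:ℝ) ≤ κ * L + 1) (hσ : 0 < σ) {M t : ℝ}
    (ht : t = 2 * Real.sqrt (Real.log (2 * n))) (hM : M = 10 * (1 + σ * t)) :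
    Real.exp (-(((κ+2)^2 * (3205 + 2*κ) + 1) * L ^ 2 * (L + 1 / σ ^ 2))) ≤
      (1/2 * ((1/10) * (1/4:ℝ) ^ N) * Real.exp (-(2 * (M / σ) ^ 2))) ^ ((N+1)^2) * (1/2) := by
  have hn' : (2:ℝ) ≤ n := by exact_mod_cast hn
  have hpos : (0:ℝ) < n := by linarith
  have hlog2 : Real.log 2 ≤ 7/10 := by
    have := Real.log_two_lt_d9
    linarith
  have hlog2n : Real.log (2 * n) = Real.log 2 + L := by
    rw [hL, Real.log_mul (by norm_num) hpos.ne']
  have hlog0 : 0 < Real.log 2 := Real.log_pos (by norm_num)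
  have hsq : t ^ 2 = 4 * Real.log (2 * n) := by
    rw [ht, mul_pow, Real.sq_sqrt (by rw [hlog2n]; linarith)]
    ring
  have ht0 : 0 ≤ t := by
    rw [ht]
    positivity
  -- the exponent of one entry
  have hMσ : 2 * (M / σ) ^ 2 ≤ 400 * (1 / σ ^ 2) + 3200 * L := by
    have e1 : M / σ = 10 * (1 / σ + t) := by
      rw [hM]
      field_simp
    rw [e1]
    have h1 : (1 / σ + t) ^ 2 ≤ 2 * (1 / σ ^ 2) + 2 * t ^ 2 := by
      have : 1 / σ ^ 2 = (1 / σ) ^ 2 := by rw [one_div_pow]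
      rw [this]
      nlinarith [sq_nonneg (1 / σ - t)]
    rw [hsq, hlog2n] at h1
    nlinarith
  set E : ℝ := (3205 + 2*κ) * L + 400 * (1 / σ ^ 2) with hE
  have hp : Real.exp (-E) ≤ 1/2 * ((1/10) * (1/4:ℝ) ^ N) * Real.exp (-(2 * (M / σ) ^ 2)) := by
    have e1 : (1:ℝ)/2 * ((1/10) * (1/4:ℝ) ^ N) = Real.exp (-(Real.log 20 + N * Real.log 4)) := by
      rw [neg_add, Real.exp_add, Real.exp_neg, Real.exp_log (by norm_num), ← mul_neg,
        ← Real.log_inv, Real.exp_nat_mul, Real.exp_log (by norm_num)]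
      norm_num
      ring
    rw [e1, ← Real.exp_add]
    apply Real.exp_le_exp.mpr
    have h1 : Real.log 4 ≤ 3/2 := by
      have : Real.log 4 = 2 * Real.log 2 := by
        rw [show (4:ℝ) = 2 ^ 2 by norm_num, Real.log_pow]
        norm_num
      linarith
    have h2 : Real.log 20 ≤ 7/2 := by
      have h3 : Real.log 20 ≤ Real.log 32 := Real.log_le_log (by norm_num) (by norm_num)
      have h4 : Real.log 32 = 5 * Real.log 2 := by
        rw [show (32:ℝ) = 2 ^ 5 by norm_num, Real.log_pow]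
        norm_num
      linarith
    have h5 : (N:ℝ) * Real.log 4 ≤ (κ * L + 1) * (3/2) :=
      mul_le_mul hN h1 (Real.log_nonneg (by norm_num)) (by positivity)
    rw [hE]
    nlinarith
  have hE0 : 0 ≤ E := by
    rw [hE]
    positivity
  have hN2 : (((N+1)^2 : ℕ) : ℝ) ≤ (κ+2)^2 * L ^ 2 := by
    push_cast
    rw [← mul_pow]
    apply pow_le_pow_left₀ (by positivity)
    nlinarith
  have hpow : Real.exp (-((κ+2)^2 * L ^ 2 * E)) ≤
      (1/2 * ((1/10) * (1/4:ℝ) ^ N) * Real.exp (-(2 * (M / σ) ^ 2))) ^ ((N+1)^2) := by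
    refine le_trans ?_ (pow_le_pow_left₀ (Real.exp_pos _).le hp _)
    rw [← Real.exp_nat_mul]
    apply Real.exp_le_exp.mpr
    nlinarith [mul_le_mul_of_nonneg_right hN2 hE0]
  have hhalf : Real.exp (-1) ≤ 1/2 := by
    rw [Real.exp_neg, one_div]
    apply inv_anti₀ (by norm_num)
    have := Real.add_one_le_exp (1:ℝ)
    linarith
  calc Real.exp (-(((κ+2)^2 * (3205 + 2*κ) + 1) * L ^ 2 * (L + 1 / σ ^ 2)))
      ≤ Real.exp (-((κ+2)^2 * L ^ 2 * E)) * Real.exp (-1) := by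
        rw [← Real.exp_add]
        apply Real.exp_le_exp.mpr
        have hs : 0 ≤ 1 / σ ^ 2 := by positivity
        have h1 : E ≤ (3205 + 2*κ) * (L + 1 / σ ^ 2) := by
          rw [hE]
          nlinarith
        have h2 : (κ+2)^2 * L ^ 2 * E ≤ (κ+2)^2 * L ^ 2 * ((3205 + 2*κ) * (L + 1 / σ ^ 2)) :=
          mul_le_mul_of_nonneg_left h1 (by positivity)
        have h3 : 1 ≤ L ^ 2 := one_le_pow₀ hL1
        have h4 : 1 ≤ L ^ 2 * (L + 1 / σ ^ 2) := by nlinarith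
        nlinarith
    _ ≤ _ := mul_le_mul hpow hhalf (Real.exp_pos _).le (by positivity)

/-- The main lower bound. -/
theorem main (c : ℝ) (hc : 0 < c) : ∃ K : ℝ, 0 < K ∧ ∃ n₀ : ℕ, ∀ n : ℕ, n₀ ≤ n →
    ∀ σ : ℝ, 0 < σ → σ ≤ 1 → ∀ Ab : Fin n → Fin n → ℝ, (∀ i j, |Ab i j| ≤ 1) →
    ∃ S : Set (Fin n → Fin n → ℝ),
      ENNReal.ofReal (Real.exp (-(K * Real.log n ^ 2 * (Real.log n + 1 / σ ^ 2)))) ≤
        (Measure.pi fun _ : Fin n => Measure.pi fun _ : Fin n => gaussianReal 0 1) S ∧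
      ∀ G ∈ S, ∀ (π : Equiv.Perm (Fin n)) (L U : Fin n → Fin n → ℝ),
        PP (fun i j => Ab i j + σ * G i j) π L U →
        (n:ℝ) ^ c * (⨆ i, ∑ j, |Ab i j + σ * G i j|) < ⨆ i, ∑ j, |U i j| := by
  have hlog : 0 < Real.log (3/2) := Real.log_pos (by norm_num)
  set κ : ℝ := (c + 2) / Real.log (3/2) with hκdef
  have hκ : κ * Real.log (3/2) = c + 2 := by
    rw [hκdef]
    field_simp
  have hκ0 : 0 ≤ κ := by positivity
  obtain ⟨n₀, hn₀⟩ := size_event κ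
  refine ⟨(κ+2)^2 * (3205 + 2*κ) + 1, by positivity, n₀, ?_⟩
  intro n hn σ hσ hσ1 Ab hA
  obtain ⟨hn2, hL1, hκn⟩ := hn₀ n hn
  set N : ℕ := ⌈κ * Real.log n⌉₊ with hNdef
  have hN1 : κ * Real.log n ≤ N := Nat.le_ceil _
  have hN2 : (N:ℝ) < κ * Real.log n + 1 := Nat.ceil_lt_add_one (by positivity)
  have hNn : N < n := by
    have : (N:ℝ) < n := by linarith
    exact_mod_cast this
  set t : ℝ := 2 * Real.sqrt (Real.log (2 * n)) with ht
  have ht0 : 0 ≤ t := by positivity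
  set M : ℝ := 10 * (1 + σ * t) with hM
  have hσt : 0 ≤ σ * t := by positivity
  have hM10 : 10 ≤ M := by
    rw [hM]
    linarith
  have hM0 : 0 < M := by linarith
  set δ : ℝ := (1/10) * (1/4:ℝ) ^ N with hδ
  have hδ0 : 0 ≤ δ := by positivity
  have hδN : (4:ℝ) ^ N * δ ≤ 1/10 := by
    rw [hδ, ← mul_assoc, mul_comm ((4:ℝ)^N), mul_assoc, ← mul_pow]
    norm_num
  have hδ1 : δ ≤ 1/10 := by
    rw [hδ]
    have : (1/4:ℝ) ^ N ≤ 1 := pow_le_one₀ (by norm_num) (by norm_num)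
    linarith
  have hn2' : (2:ℝ) ≤ n := by exact_mod_cast hn2
  have htail : 2 * Real.exp (-(t ^ 2 / 2)) ≤ 1 / (2 * (n:ℝ) ^ 2) := by
    have hlog2n : 0 ≤ Real.log (2 * n) := Real.log_nonneg (by linarith)
    have e1 : -(t ^ 2 / 2) = -(Real.log ((2 * n) ^ 2)) := by
      rw [ht, mul_pow, Real.sq_sqrt hlog2n, Real.log_pow]
      push_cast
      ring
    rw [e1, Real.exp_neg, Real.exp_log (by positivity)]
    apply le_of_eq
    have : (n:ℝ) ≠ 0 := by positivity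
    field_simp
  refine ⟨Set.univ.pi fun i : Fin n => Set.univ.pi fun j : Fin n => bx N δ M σ t (Ab i j) i j,
    ?_, ?_⟩
  · refine le_trans (ENNReal.ofReal_le_ofReal ?_)
      (box_ge (N := N) hσ hδ0 hδ1 (by linarith) (by linarith) ht0 htail (by omega) hA)
    exact prob_size hκ0 hn2 rfl hL1 hN2.le hσ ht hM
  · intro G hG π L U hP
    have hG' : ∀ i j : Fin n, G i j ∈ bx N δ M σ t (Ab i j) i j := fun i j =>
      hG i (Set.mem_univ _) j (Set.mem_univ _)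
    have h1 : ∀ i j : Fin n, (i:ℕ) ≤ N → (j:ℕ) ≤ N →
        |Ab i j + σ * G i j - M * tgt N i j| ≤ M * δ := by
      intro i j hi hj
      have h2 := hG' i j
      unfold bx at h2
      rw [if_pos ⟨hi, hj⟩, Set.mem_Icc, ← sub_div, ← add_div, div_le_iff₀ hσ, le_div_iff₀ hσ] at h2
      rw [abs_le]
      constructor <;> nlinarith [h2.1, h2.2]
    have h2 : ∀ i j : Fin n, N < (i:ℕ) ∨ N < (j:ℕ) → |Ab i j + σ * G i j| ≤ M / 10 := by
      intro i j hij
      have h3 := hG' i j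
      unfold bx at h3
      rw [if_neg (by omega), Set.mem_Icc, ← abs_le] at h3
      have h4 := hA i j
      calc |Ab i j + σ * G i j| ≤ |Ab i j| + |σ * G i j| := abs_add_le _ _
        _ ≤ 1 + σ * t := by
            rw [abs_mul, abs_of_pos hσ]
            exact add_le_add h4 (mul_le_mul_of_nonneg_left h3 hσ.le)
        _ = M / 10 := by
            rw [hM]
            ring
    have h3 := growth hM0 hNn hδ0 hδN h1 h2 hP
    have : Nonempty (Fin n) := ⟨⟨N, hNn⟩⟩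
    have h4 : (⨆ i, ∑ j, |Ab i j + σ * G i j|) ≤ n * (M * (11/10)) :=
      ciSup_le fun i => row_le hM0 hδ1 h1 h2 i
    have h5 : |U ⟨N, hNn⟩ ⟨N, hNn⟩| ≤ ⨆ i, ∑ j, |U i j| := by
      refine le_trans ?_ (le_ciSup (f := fun i => ∑ j, |U i j|)
        (Set.finite_range _).bddAbove ⟨N, hNn⟩)
      exact Finset.single_le_sum (f := fun j => |U ⟨N, hNn⟩ j|) (fun _ _ => abs_nonneg _)
        (Finset.mem_univ _)
    calc (n:ℝ) ^ c * (⨆ i, ∑ j, |Ab i j + σ * G i j|) ≤ (n:ℝ) ^ c * (n * (M * (11/10))) :=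
          mul_le_mul_of_nonneg_left h4 (Real.rpow_nonneg (by linarith) _)
      _ < M * (9/10 * (3/2) ^ N) := growth_size hκ hn2 hN1 hM0
      _ ≤ _ := h3.trans h5

end Pool.Agent.H77.GEPP
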